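import Pool.Agent.Lib.helper82.StackMachine

/-!
The Cook-Levin theorem for the class `N68a2faeb.NP`: every language in it reduces in polynomial
time to the satisfiability of formulas with three literals per clause.
-/

set_option autoImplicit false

namespace Pool.Agent.H82

open Pool.Agent.PolyT N487b59b3 Function

/-- A literal: a variable and the value that makes it true. -/
abbrev Lit : Type := ℕ × Bool

/-- A clause with three literals. -/
abbrev Cl : Type := Lit × Lit × Lit

/-- The assignment `β` satisfies the clause `C`. -/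
def Cl.Holds (β : ℕ → Bool) (C : Cl) : Prop :=
  β C.1.1 = C.1.2 ∨ β C.2.1.1 = C.2.1.2 ∨ β C.2.2.1 = C.2.2.2

/-- Satisfiability of a list of clauses. -/
def Sat3 (φ : List Cl) : Prop := ∃ β : ℕ → Bool, ∀ C ∈ φ, C.Holds β

@[fun_prop] theorem p_natPair {α : Type} [N487b59b3 α] {f g : α → ℕ} (hf : PolyT.Poly f)
    (hg : PolyT.Poly g) : PolyT.Poly (fun a => Nat.pair (f a) (g a)) :=
  PolyT.Poly.congr
    (f := fun a => cond (ltB (f a) (g a)) (g a * g a + f a) (f a * f a + f a + g a))
    (by fun_prop) (fun a => by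
      unfold Nat.pair ltB
      by_cases h : f a < g a <;> simp [h])

/-- Variable names. -/
def var (t i c : ℕ) : ℕ := Nat.pair t (Nat.pair i c)

theorem var_inj {t i c t' i' c' : ℕ} : var t i c = var t' i' c' ↔ t = t' ∧ i = i' ∧ c = c' := by
  simp [var, Nat.pair_eq_pair]

@[fun_prop] theorem p_var {α : Type} [N487b59b3 α] {f g h : α → ℕ} (hf : PolyT.Poly f)
    (hg : PolyT.Poly g) (hh : PolyT.Poly h) : PolyT.Poly (fun a => var (f a) (g a) (h a)) := by
  unfold var; fun_prop

/-- The clause saying that `a` and `b` imply `c`. -/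
def imp2 (a b c : ℕ) : Cl := ((a, false), (b, false), (c, true))

/-- The clause made of one literal. -/
def unitCl (a : ℕ) (s : Bool) : Cl := ((a, s), (a, s), (a, s))

/-- The clause saying `a` or `b`. -/
def or2 (a b : ℕ) : Cl := ((a, true), (b, true), (b, true))

@[fun_prop] theorem p_imp2 {α : Type} [N487b59b3 α] {f g h : α → ℕ} (hf : PolyT.Poly f)
    (hg : PolyT.Poly g) (hh : PolyT.Poly h) : PolyT.Poly (fun a => imp2 (f a) (g a) (h a)) := by
  unfold imp2; fun_prop

@[fun_prop] theorem p_unitCl {α : Type} [N487b59b3 α] {f : α → ℕ} {g : α → Bool}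
    (hf : PolyT.Poly f) (hg : PolyT.Poly g) : PolyT.Poly (fun a => unitCl (f a) (g a)) := by
  unfold unitCl; fun_prop

@[fun_prop] theorem p_or2 {α : Type} [N487b59b3 α] {f g : α → ℕ} (hf : PolyT.Poly f)
    (hg : PolyT.Poly g) : PolyT.Poly (fun a => or2 (f a) (g a)) := by
  unfold or2; fun_prop

@[simp] theorem holds_imp2 (β : ℕ → Bool) (a b c : ℕ) :
    (imp2 a b c).Holds β ↔ (β a = true → β b = true → β c = true) := by
  unfold imp2 Cl.Holds
  cases β a <;> cases β b <;> simp

@[simp] theorem holds_unitCl (β : ℕ → Bool) (a : ℕ) (s : Bool) :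
    (unitCl a s).Holds β ↔ β a = s := by
  simp [unitCl, Cl.Holds]

@[simp] theorem holds_or2 (β : ℕ → Bool) (a b : ℕ) :
    (or2 a b).Holds β ↔ (β a = true ∨ β b = true) := by
  simp [or2, Cl.Holds]

namespace FSM

variable (N : FSM)

/-- Numbers for states and for cell contents. -/
noncomputable def code (x : N.Q ⊕ N.K × Option N.G) : ℕ := Fintype.equivFin _ x

theorem code_inj : Injective N.code := fun _ _ h =>
  (Fintype.equivFin _).injective (Fin.ext h)

/-- Code of a state. -/
noncomputable def cq (q : N.Q) : ℕ := N.code (Sum.inl q)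

/-- Code of a cell content. -/
noncomputable def cc (k : N.K) (γ : Option N.G) : ℕ := N.code (Sum.inr (k, γ))

open Classical in
/-- Shift of the source position. -/
noncomputable def dd (q : N.Q) (k : N.K) : ℕ :=
  if k = N.M.stk q ∧ N.M.op q = some none then 1 else 0

/-- Shift of the target position. -/
def ee (q : N.Q) (k : N.K) : ℕ :=
  if k = N.M.stk q ∧ ((N.M.op q).getD none).isSome then 1 else 0

theorem step_cell (c : N.Q × (N.K → List N.G)) (k : N.K) (i : ℕ) :
    ((N.M.step c).2 k)[i + N.ee c.1 k]? = (c.2 k)[i + N.dd c.1 k]? := by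
  unfold SM.step dd ee
  by_cases hk : k = N.M.stk c.1
  · subst hk
    simp only [update_self, true_and]
    rcases h : N.M.op c.1 with _ | _ | g <;> simp [upd]
  · simp [hk]

theorem step_push (c : N.Q × (N.K → List N.G)) (g : N.G) (h : N.M.op c.1 = some (some g)) :
    ((N.M.step c).2 (N.M.stk c.1))[0]? = some g := by
  simp [SM.step, h, upd]

/-- The local rules of a run of length `T`. -/
structure Tab (β : ℕ → Bool) (T : ℕ) : Prop where
  ctl : ∀ t < T, ∀ q γ, β (var t 0 (N.cq q)) = true → β (var t 0 (N.cc (N.M.stk q) γ)) = true →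
    β (var (t + 1) 0 (N.cq (N.M.next q γ))) = true
  psh : ∀ t < T, ∀ q g, N.M.op q = some (some g) → β (var t 0 (N.cq q)) = true →
    β (var (t + 1) 0 (N.cc (N.M.stk q) (some g))) = true
  cell : ∀ t < T, ∀ i < T, ∀ q k γ, β (var t 0 (N.cq q)) = true →
    β (var t (i + N.dd q k) (N.cc k γ)) = true → β (var (t + 1) (i + N.ee q k) (N.cc k γ)) = true

theorem Tab.sound {N : FSM} {β : ℕ → Bool} {T : ℕ} (h : N.Tab β T) (c : N.Q × (N.K → List N.G))
    (h0 : β (var 0 0 (N.cq c.1)) = true)
    (h1 : ∀ k i, i ≤ T → β (var 0 i (N.cc k (c.2 k)[i]?)) = true) (t : ℕ) (ht : t ≤ T) :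
    β (var t 0 (N.cq (N.M.step^[t] c).1)) = true ∧
      ∀ k i, i + t ≤ T → β (var t i (N.cc k ((N.M.step^[t] c).2 k)[i]?)) = true := by
  induction t with
  | zero => exact ⟨h0, fun k i hi => h1 k i hi⟩
  | succ t ih =>
    obtain ⟨a1, a2⟩ := ih (by omega)
    rw [iterate_succ_apply']
    generalize N.M.step^[t] c = d at a1 a2
    refine ⟨?_, fun k i hi => ?_⟩
    · refine h.ctl t (by omega) d.1 _ a1 ?_
      have := a2 (N.M.stk d.1) 0 (by omega)
      rwa [← List.head?_eq_getElem?] at this
    · by_cases he : N.ee d.1 k ≤ i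
      · obtain ⟨j, rfl⟩ := Nat.exists_eq_add_of_le' he
        rw [step_cell]
        refine h.cell t (by omega) j (by omega) d.1 k _ a1 (a2 k _ ?_)
        have : N.dd d.1 k ≤ 1 := by unfold dd; split_ifs <;> omega
        omega
      · unfold ee at he
        split_ifs at he with h2
        · obtain ⟨rfl, h3⟩ := h2
          obtain rfl : i = 0 := by omega
          rcases h4 : N.M.op d.1 with _ | _ | g
          · simp [h4] at h3
          · simp [h4] at h3
          · rw [step_push N d g h4]
            exact h.psh t (by omega) d.1 g h4 a1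
        · omega

open Classical in
/-- The assignment describing the run from `c`. -/
noncomputable def runVal (c : N.Q × (N.K → List N.G)) (v : ℕ) : Bool :=
  decide ((∃ t, v = var t 0 (N.cq (N.M.step^[t] c).1)) ∨
    ∃ t i k, v = var t i (N.cc k ((N.M.step^[t] c).2 k)[i]?))

theorem runVal_cq (c : N.Q × (N.K → List N.G)) (t : ℕ) (q : N.Q) :
    N.runVal c (var t 0 (N.cq q)) = true ↔ (N.M.step^[t] c).1 = q := by
  simp only [runVal, decide_eq_true_eq, var_inj, cq, cc, N.code_inj.eq_iff]
  constructor
  · rintro (⟨t, rfl, -, h⟩ | ⟨t, i, k, -, -, h⟩)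
    · exact (Sum.inl.inj h).symm
    · cases h
  · rintro rfl
    exact Or.inl ⟨t, rfl, trivial, rfl⟩

theorem runVal_cc (c : N.Q × (N.K → List N.G)) (t i : ℕ) (k : N.K) (γ : Option N.G) :
    N.runVal c (var t i (N.cc k γ)) = true ↔ ((N.M.step^[t] c).2 k)[i]? = γ := by
  simp only [runVal, decide_eq_true_eq, var_inj, cq, cc, N.code_inj.eq_iff]
  constructor
  · rintro (⟨t, rfl, -, h⟩ | ⟨t, i, k, rfl, rfl, h⟩)
    · cases h
    · obtain ⟨rfl, rfl⟩ := Prod.mk.inj (Sum.inr.inj h)
      rfl
  · rintro rfl
    exact Or.inr ⟨t, i, k, rfl, rfl, rfl⟩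

theorem tab_runVal (c : N.Q × (N.K → List N.G)) (T : ℕ) : N.Tab (N.runVal c) T where
  ctl t _ q γ := by
    rw [runVal_cq, runVal_cc, runVal_cq, iterate_succ_apply']
    rintro rfl rfl
    rw [← List.head?_eq_getElem?]
    rfl
  psh t _ q g h := by
    rw [runVal_cq, runVal_cc, iterate_succ_apply']
    rintro rfl
    exact step_push N _ g h
  cell t _ i _ q k γ := by
    rw [runVal_cq, runVal_cc, runVal_cc, iterate_succ_apply']
    rintro rfl rfl
    exact step_cell N _ k i

/-- Templates of the control clauses. -/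
noncomputable def tz : List (ℕ × ℕ × ℕ) :=
  (Finset.univ : Finset (N.Q × Option N.G)).toList.map
    (fun p => (N.cq p.1, N.cc (N.M.stk p.1) p.2, N.cq (N.M.next p.1 p.2)))

open Classical in
/-- Templates of the push clauses. -/
noncomputable def tp : List (ℕ × ℕ) :=
  (Finset.univ.filter (fun p : N.Q × N.G => N.M.op p.1 = some (some p.2))).toList.map
    (fun p => (N.cq p.1, N.cc (N.M.stk p.1) (some p.2)))

/-- Templates of the cell clauses. -/
noncomputable def tc : List (ℕ × ℕ × ℕ × ℕ) :=
  (Finset.univ : Finset (N.Q × N.K × Option N.G)).toList.map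
    (fun p => (N.cq p.1, N.cc p.2.1 p.2.2, N.dd p.1 p.2.1, N.ee p.1 p.2.1))

/-- Codes of blanks in the stacks other than the input stack. -/
noncomputable def tb : List ℕ :=
  (Finset.univ.filter (fun k : N.K => k ≠ N.k₀)).toList.map (fun k => N.cc k none)

/-- The clauses of the local rules, for a run of length `l.length`. -/
noncomputable def tabCl (l : List ℕ) : List Cl :=
  (idx l).flatMap (fun t =>
    N.tz.map (fun p => imp2 (var t 0 p.1) (var t 0 p.2.1) (var (t + 1) 0 p.2.2)) ++
    N.tp.map (fun p => imp2 (var t 0 p.1) (var t 0 p.1) (var (t + 1) 0 p.2)) ++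
    (idx l).flatMap (fun i => N.tc.map (fun p =>
      imp2 (var t 0 p.1) (var t (i + p.2.2.1) p.2.1) (var (t + 1) (i + p.2.2.2) p.2.1))))

theorem tabCl_iff (β : ℕ → Bool) (l : List ℕ) :
    (∀ C ∈ N.tabCl l, C.Holds β) ↔ N.Tab β l.length := by
  simp only [tabCl, tz, tp, tc, List.forall_mem_flatMap, List.forall_mem_append,
    List.forall_mem_map, mem_idx, holds_imp2, Finset.mem_toList, Finset.mem_univ,
    Finset.mem_filter, true_and, true_imp_iff, Prod.forall]
  exact ⟨fun h => ⟨fun t ht => (h t ht).1.1, fun t ht q g h1 h2 => (h t ht).1.2 q g h1 h2 h2,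
      fun t ht => (h t ht).2⟩,
    fun h t ht => ⟨⟨h.ctl t ht, fun q g h1 h2 _ => h.psh t ht q g h1 h2⟩, h.cell t ht⟩⟩

/-- The clauses describing the input `u` followed by `m.length` free bits, and acceptance. -/
noncomputable def ioCl (u : List Bool) (m l : List ℕ) : List Cl :=
  unitCl (var 0 0 (N.cq N.q₀)) true ::
  unitCl (var l.length 0 (N.cc N.k₁ (some (N.out false)))) false ::
  ((idx u).map (fun i => unitCl (var 0 i (cond (u.getD i false) (N.cc N.k₀ (some (N.inp true)))
      (N.cc N.k₀ (some (N.inp false))))) true) ++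
    (idx m).map (fun j => or2 (var 0 (u.length + j) (N.cc N.k₀ (some (N.inp true))))
      (var 0 (u.length + j) (N.cc N.k₀ (some (N.inp false))))) ++
    (idx (0 :: l)).flatMap (fun i =>
      unitCl (var 0 (u.length + m.length + i) (N.cc N.k₀ none)) true ::
        N.tb.map (fun c => unitCl (var 0 i c) true)))

theorem poly_cl {α : Type} [N487b59b3 α] {u : α → List Bool} {m l : α → List ℕ}
    (hu : PolyT.Poly u) (hm : PolyT.Poly m) (hl : PolyT.Poly l) :
    PolyT.Poly (fun a => N.ioCl (u a) (m a) (l a) ++ N.tabCl (l a)) := by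
  unfold ioCl tabCl
  fun_prop

theorem sat_iff (u : List Bool) (m l : List ℕ) (R : List Bool → Bool)
    (hR : ∀ w : List Bool, w.length = m.length →
      (N.M.step^[l.length] (N.start (u ++ w))).2 N.k₁ = [N.out (R w)]) :
    Sat3 (N.ioCl u m l ++ N.tabCl l) ↔ ∃ w : List Bool, w.length = m.length ∧ R w = true := by
  simp only [Sat3, List.forall_mem_append, tabCl_iff, ioCl, tb, List.forall_mem_cons,
    List.forall_mem_flatMap, List.forall_mem_map, mem_idx, holds_unitCl, holds_or2,
    Finset.mem_toList, Finset.mem_filter, Finset.mem_univ, true_and, List.length_cons]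
  constructor
  · rintro ⟨β, ⟨h0, hf, ⟨hu, hm⟩, hb⟩, hT⟩
    let w : List Bool := (List.range m.length).map
      (fun j => β (var 0 (u.length + j) (N.cc N.k₀ (some (N.inp true)))))
    have hw : w.length = m.length := by simp [w]
    refine ⟨w, hw, ?_⟩
    have key := (hT.sound (N.start (u ++ w)) h0 (fun k i hi => ?_) l.length le_rfl).2
      N.k₁ 0 (by omega)
    · rw [hR w hw] at key
      cases hRw : R w
      · rw [hRw] at key
        simp only [List.getElem?_cons_zero] at key
        rw [key] at hf
        cases hf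
      · rfl
    · by_cases hk : k = N.k₀
      · subst hk
        simp only [start, if_true, List.getElem?_map]
        by_cases h1 : i < u.length
        · have := hu i h1
          rw [List.getElem?_append_left h1, List.getElem?_eq_getElem h1]
          rw [List.getD_eq_getElem _ _ h1] at this
          revert this
          cases u[i] <;> simp
        · obtain ⟨j, rfl⟩ := Nat.exists_eq_add_of_le (not_lt.1 h1)
          rw [List.getElem?_append_right (by omega), Nat.add_sub_cancel_left]
          by_cases h2 : j < m.length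
          · have h3 : w[j]? = some (β (var 0 (u.length + j) (N.cc N.k₀ (some (N.inp true))))) := by
              simp [w, h2]
            rw [h3]
            have := hm j h2
            revert this
            cases h4 : β (var 0 (u.length + j) (N.cc N.k₀ (some (N.inp true)))) <;> simp [h4]
          · obtain ⟨j', rfl⟩ := Nat.exists_eq_add_of_le (not_lt.1 h2)
            rw [List.getElem?_eq_none (by omega), ← Nat.add_assoc]
            exact (hb j' (by omega)).1
      · simp only [start, if_neg hk, List.getElem?_nil]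
        exact (hb i (by omega)).2 k hk
  · rintro ⟨w, hw, hRw⟩
    refine ⟨N.runVal (N.start (u ++ w)), ⟨?_, ?_, ⟨fun i hi => ?_, fun j hj => ?_⟩,
      fun i _ => ⟨?_, fun k hk => ?_⟩⟩, N.tab_runVal _ _⟩
    · rw [runVal_cq]; rfl
    · rw [← Bool.not_eq_true, runVal_cc, hR w hw, hRw]
      simp [N.out_inj.eq_iff]
    · have : cond (u.getD i false) (N.cc N.k₀ (some (N.inp true)))
          (N.cc N.k₀ (some (N.inp false))) = N.cc N.k₀ (some (N.inp (u.getD i false))) := by
        cases u.getD i false <;> rfl
      rw [this, runVal_cc]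
      simp [start, List.getElem?_append_left, hi]
    · rw [runVal_cc, runVal_cc]
      have hj' : j < w.length := by omega
      simp only [start, iterate_zero_apply, if_true, List.getElem?_map]
      rw [List.getElem?_append_right (by omega), Nat.add_sub_cancel_left,
        List.getElem?_eq_getElem hj']
      cases w[j] <;> simp
    · rw [runVal_cc]
      simp [start, hw]
    · rw [runVal_cc]
      simp [start, hk]

end FSM

/-- Reading a short witness off a string of length `2 * P`. -/
def unpad (P : ℕ) (w : List Bool) : List Bool :=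
  (w.drop P).take ((w.take P).filter (fun b => b)).length

theorem length_unpad (P : ℕ) (w : List Bool) : (unpad P w).length ≤ P :=
  (List.length_take_le _ _).trans ((List.length_filter_le _ _).trans (List.length_take_le _ _))

theorem exists_unpad (P : ℕ) (w : List Bool) (h : w.length ≤ P) :
    ∃ w' : List Bool, w'.length = 2 * P ∧ unpad P w' = w := by
  refine ⟨(List.replicate w.length true ++ List.replicate (P - w.length) false) ++
    (w ++ List.replicate (P - w.length) false), by simp; omega, ?_⟩
  unfold unpad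
  have h1 : (List.replicate w.length true ++ List.replicate (P - w.length) false).length = P := by
    simp; omega
  rw [List.drop_left' h1, List.take_left' h1]
  simp

/-- The Cook-Levin theorem. -/
theorem cook_levin {L : List Bool → Bool} (hL : L ∈ N68a2faeb.NP) :
    ∃ φ : List Bool → List Cl, PolyT.Poly φ ∧ ∀ x, L x = true ↔ Sat3 (φ x) := by
  obtain ⟨p, R, hR, hL⟩ := hL
  rw [← poly_iff] at hR
  obtain ⟨F, hF, hFl⟩ := exists_list_eval (α := List Bool) PolyT.Poly.id p
  have hv : PolyT.Poly (fun y : List Bool × Raw => y.2.val) :=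
    PolyT.Poly.bitsOf (PolyT.Poly.id.snd : PolyT.Poly (fun y : List Bool × Raw => y.2))
  have hR' : PolyT.Poly (fun y : List Bool × Raw => R (y.1, unpad (F y.1).length y.2.val)) := by
    unfold unpad
    fun_prop
  obtain ⟨N, r, hN⟩ := exists_fsm hR'
  obtain ⟨G, hG, hGl⟩ := exists_list_eval (α := List Bool) PolyT.Poly.id
    (r.comp (6 * Polynomial.X + 1 + 2 * p))
  have hu : PolyT.Poly (fun x : List Bool => delimit (bitEncode x)) :=
    PolyT.Poly.bitsOf (PT.delimit (PT.refl _))
  refine ⟨_, N.poly_cl hu (m := fun x => F x ++ F x) (by fun_prop) hG, fun x => ?_⟩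
  rw [hL, N.sat_iff _ _ _ (fun w => R (x, unpad (F x).length w))]
  · constructor
    · rintro ⟨w, hw, h⟩
      obtain ⟨w', h1, h2⟩ := exists_unpad (F x).length w (by rw [hFl]; exact hw)
      exact ⟨w', by simp [h1, two_mul], by rw [h2]; exact h⟩
    · rintro ⟨w, -, h⟩
      exact ⟨_, by rw [← hFl]; exact length_unpad _ _, h⟩
  · intro w hw
    refine hN (x, Raw.mk w) _ (le_of_eq ?_)
    rw [hGl, Polynomial.eval_comp, length_enc_pair, PolyT.Poly.enc_bools_length]
    simp only [List.length_append, hFl] at hw
    congr 1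
    simp [hw]
    ring

/-- A polynomial-time test for satisfiability collapses NP to P. -/
theorem P_eq_NP_of_sat {D : List Cl → Bool} (hD : PolyT.Poly D)
    (h : ∀ φ, D φ = true ↔ Sat3 φ) : N68a2faeb.P = N68a2faeb.NP := by
  ext L
  constructor
  · intro hL
    have hL' : PolyT.Poly L := (poly_iff _).2 hL
    refine ⟨0, fun y => L y.1, (poly_iff _).1 (hL'.comp PolyT.Poly.id.fst), fun x => ?_⟩
    exact ⟨fun h => ⟨[], by simp, h⟩, fun ⟨_, _, h⟩ => h⟩
  · intro hL
    obtain ⟨φ, hφ, h1⟩ := cook_levin hL
    refine (poly_iff _).1 ((hD.comp hφ).congr (fun x => ?_))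
    rw [Bool.eq_iff_iff, h, h1]

end Pool.Agent.H82
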