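import Pool.Agent.Lib.helper72.PTNat

/-!
Automation for `Poly` (the closure lemmas tagged for `fun_prop`) and numbers available in unary.
-/

set_option autoImplicit false

namespace Pool.Agent.H82

open Pool.Agent.PolyT N487b59b3

attribute [fun_prop] PolyT.Poly

/-- Boolean equality test. -/
def eqB {β : Type} [DecidableEq β] (x y : β) : Bool := decide (x = y)

/-- Boolean order test. -/
def ltB (x y : ℕ) : Bool := decide (x < y)

@[simp] theorem eqB_iff {β : Type} [DecidableEq β] {x y : β} : eqB x y = true ↔ x = y := by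
  simp [eqB]

@[simp] theorem eqB_false_iff {β : Type} [DecidableEq β] {x y : β} :
    eqB x y = false ↔ x ≠ y := by
  simp [eqB]

@[simp] theorem ltB_iff {x y : ℕ} : ltB x y = true ↔ x < y := by simp [ltB]

@[simp] theorem ltB_false_iff {x y : ℕ} : ltB x y = false ↔ y ≤ x := by simp [ltB]

section closure

variable {α β γ : Type} [N487b59b3 α] [N487b59b3 β] [N487b59b3 γ]

@[fun_prop] theorem p_id : PolyT.Poly (fun a : α => a) := PolyT.Poly.id

@[fun_prop] theorem p_const (b : β) : PolyT.Poly (fun _ : α => b) := PolyT.Poly.const b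

@[fun_prop] theorem p_comp {g : β → γ} {f : α → β} (hg : PolyT.Poly g) (hf : PolyT.Poly f) :
    PolyT.Poly (fun a => g (f a)) := hg.comp hf

@[fun_prop] theorem p_pair {f : α → β} {g : α → γ} (hf : PolyT.Poly f) (hg : PolyT.Poly g) :
    PolyT.Poly (fun a => (f a, g a)) := hf.pair hg

@[fun_prop] theorem p_fst {f : α → β × γ} (hf : PolyT.Poly f) :
    PolyT.Poly (fun a => (f a).1) := hf.fst

@[fun_prop] theorem p_snd {f : α → β × γ} (hf : PolyT.Poly f) :
    PolyT.Poly (fun a => (f a).2) := hf.snd

@[fun_prop] theorem p_cond {c : α → Bool} {f g : α → β} (hc : PolyT.Poly c) (hf : PolyT.Poly f)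
    (hg : PolyT.Poly g) : PolyT.Poly (fun a => cond (c a) (f a) (g a)) := hc.cond hf hg

@[fun_prop] theorem p_not {c : α → Bool} (hc : PolyT.Poly c) : PolyT.Poly (fun a => !c a) :=
  hc.not

@[fun_prop] theorem p_and {c d : α → Bool} (hc : PolyT.Poly c) (hd : PolyT.Poly d) :
    PolyT.Poly (fun a => c a && d a) := hc.and hd

@[fun_prop] theorem p_or {c d : α → Bool} (hc : PolyT.Poly c) (hd : PolyT.Poly d) :
    PolyT.Poly (fun a => c a || d a) := hc.or hd

@[fun_prop] theorem p_cons {f : α → β} {l : α → List β} (hf : PolyT.Poly f) (hl : PolyT.Poly l) :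
    PolyT.Poly (fun a => f a :: l a) := hf.cons hl

@[fun_prop] theorem p_append {l l' : α → List β} (hl : PolyT.Poly l) (hl' : PolyT.Poly l') :
    PolyT.Poly (fun a => l a ++ l' a) := hl.append hl'

@[fun_prop] theorem p_map {g : α → β → γ} {l : α → List β}
    (hg : PolyT.Poly (fun p : α × β => g p.1 p.2)) (hl : PolyT.Poly l) :
    PolyT.Poly (fun a => (l a).map (g a)) := PolyT.Poly.map hg hl

@[fun_prop] theorem p_flatMap {g : α → β → List γ} {l : α → List β}
    (hg : PolyT.Poly (fun p : α × β => g p.1 p.2)) (hl : PolyT.Poly l) :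
    PolyT.Poly (fun a => (l a).flatMap (g a)) := PolyT.Poly.flatMap hg hl

@[fun_prop] theorem p_filter {c : α → β → Bool} {l : α → List β}
    (hc : PolyT.Poly (fun p : α × β => c p.1 p.2)) (hl : PolyT.Poly l) :
    PolyT.Poly (fun a => (l a).filter (c a)) := PolyT.Poly.filter hc hl

@[fun_prop] theorem p_any {c : α → β → Bool} {l : α → List β}
    (hc : PolyT.Poly (fun p : α × β => c p.1 p.2)) (hl : PolyT.Poly l) :
    PolyT.Poly (fun a => (l a).any (c a)) := PolyT.Poly.any hc hl

@[fun_prop] theorem p_all {c : α → β → Bool} {l : α → List β}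
    (hc : PolyT.Poly (fun p : α × β => c p.1 p.2)) (hl : PolyT.Poly l) :
    PolyT.Poly (fun a => (l a).all (c a)) := PolyT.Poly.all hc hl

@[fun_prop] theorem p_eqB [DecidableEq β] {f g : α → β} (hf : PolyT.Poly f) (hg : PolyT.Poly g) :
    PolyT.Poly (fun a => eqB (f a) (g a)) := hf.eq hg

@[fun_prop] theorem p_ltB {f g : α → ℕ} (hf : PolyT.Poly f) (hg : PolyT.Poly g) :
    PolyT.Poly (fun a => ltB (f a) (g a)) := hf.lt hg

@[fun_prop] theorem p_add {f g : α → ℕ} (hf : PolyT.Poly f) (hg : PolyT.Poly g) :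
    PolyT.Poly (fun a => f a + g a) := hf.add hg

@[fun_prop] theorem p_mul {f g : α → ℕ} (hf : PolyT.Poly f) (hg : PolyT.Poly g) :
    PolyT.Poly (fun a => f a * g a) := hf.mul hg

@[fun_prop] theorem p_sub {f g : α → ℕ} (hf : PolyT.Poly f) (hg : PolyT.Poly g) :
    PolyT.Poly (fun a => f a - g a) := hf.sub hg

/-- Half of a number. -/
def half (n : ℕ) : ℕ := n / 2

@[fun_prop] theorem p_half {f : α → ℕ} (hf : PolyT.Poly f) : PolyT.Poly (fun a => half (f a)) :=
  hf.div2

@[fun_prop] theorem p_length {l : α → List β} (hl : PolyT.Poly l) :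
    PolyT.Poly (fun a => (l a).length) := hl.length

@[fun_prop] theorem p_drop {l : α → List β} {n : α → ℕ} (hn : PolyT.Poly n) (hl : PolyT.Poly l) :
    PolyT.Poly (fun a => (l a).drop (n a)) := hl.drop hn

@[fun_prop] theorem p_take {l : α → List β} {n : α → ℕ} (hn : PolyT.Poly n) (hl : PolyT.Poly l) :
    PolyT.Poly (fun a => (l a).take (n a)) := hl.take hn

@[fun_prop] theorem p_getD {l : α → List β} {n : α → ℕ} {d : α → β} (hl : PolyT.Poly l)
    (hn : PolyT.Poly n) (hd : PolyT.Poly d) : PolyT.Poly (fun a => (l a).getD (n a) (d a)) :=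
  hl.getD hn hd

@[fun_prop] theorem p_dedup [DecidableEq β] {l : α → List β} (hl : PolyT.Poly l) :
    PolyT.Poly (fun a => (l a).dedup) := hl.dedup

/-- The list of positions of a list. -/
def idx {β : Type} (l : List β) : List ℕ := List.range l.length

@[simp] theorem mem_idx {β : Type} {l : List β} {i : ℕ} : i ∈ idx l ↔ i < l.length := by
  simp [idx]

@[simp] theorem length_idx {β : Type} (l : List β) : (idx l).length = l.length := by
  simp [idx]

@[fun_prop] theorem p_idx {l : α → List β} (hl : PolyT.Poly l) :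
    PolyT.Poly (fun a => idx (l a)) := hl.rangeLength

end closure

/-- For every polynomial there is a polynomial-time list of that length. -/
theorem exists_list_eval {α β : Type} [N487b59b3 α] [N487b59b3 β] {l : α → List β}
    (hl : PolyT.Poly l) (q : Polynomial ℕ) :
    ∃ F : α → List ℕ, PolyT.Poly F ∧ ∀ a, (F a).length = q.eval (l a).length := by
  induction q using Polynomial.induction_on' with
  | add p q hp hq =>
    obtain ⟨F, hF, h1⟩ := hp
    obtain ⟨G, hG, h2⟩ := hq
    exact ⟨fun a => F a ++ G a, by fun_prop, fun a => by simp [h1, h2]⟩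
  | monomial k c =>
    induction k with
    | zero => exact ⟨fun _ => List.range c, by fun_prop, fun a => by simp⟩
    | succ k ih =>
      obtain ⟨F, hF, h1⟩ := ih
      refine ⟨fun a => (l a).flatMap (fun _ => F a), by fun_prop, fun a => ?_⟩
      simp only [List.length_flatMap, List.map_const', List.sum_replicate, h1,
        Polynomial.eval_monomial, smul_eq_mul]
      ring

example : PolyT.Poly (fun y : List Bool × List ℕ =>
    (idx y.1).all (fun i => (idx y.2).any (fun j => ltB (y.2.getD (i + j) 0) (3 * j) &&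
      y.1.getD (half i) false))) := by
  fun_prop

end Pool.Agent.H82
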