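import Pool.Agent.Lib.helper82.PolyFun

/-!
Simple stack machines (one stack operation per step, finite control, finite alphabet) and the
simulation of polynomial-time Mathlib stack machines by them.
-/

set_option autoImplicit false

namespace Pool.Agent.H82

open Pool.Agent.PolyT N487b59b3 Turing Turing.TM2 Function

/-- A simple stack machine: in state `q` it reads the top of stack `stk q`, leaves this stack
unchanged (`none`), pops it (`some none`) or pushes a symbol, and moves to the next state. -/
structure SM (Q K G : Type) where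
  stk : Q → K
  op : Q → Option (Option G)
  next : Q → Option G → Q

/-- The effect of an operation on a stack. -/
def upd {G : Type} : Option (Option G) → List G → List G
  | none, l => l
  | some none, l => l.tail
  | some (some g), l => g :: l

namespace SM

variable {Q K G : Type} [DecidableEq K]

/-- One step. -/
def step (M : SM Q K G) (c : Q × (K → List G)) : Q × (K → List G) :=
  (M.next c.1 (c.2 (M.stk c.1)).head?,
    update c.2 (M.stk c.1) (upd (M.op c.1) (c.2 (M.stk c.1))))

/-- The operation of the restricted machine. -/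
def resOp (B : Set G) : (o : Option (Option G)) → (∀ g, o = some (some g) → g ∈ B) →
    Option (Option B)
  | none, _ => none
  | some none, _ => some none
  | some (some g), h => some (some ⟨g, h g rfl⟩)

theorem upd_resOp (B : Set G) (o : Option (Option G)) (h : ∀ g, o = some (some g) → g ∈ B)
    (l : List B) : (upd (resOp B o h) l).map Subtype.val = upd o (l.map Subtype.val) := by
  rcases o with _ | _ | g <;> simp [resOp, upd]

/-- Restriction to closed sets of states and symbols. -/
def restrict (M : SM Q K G) (A : Set Q) (B : Set G) (hA : ∀ q ∈ A, ∀ γ, M.next q γ ∈ A)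
    (hB : ∀ q ∈ A, ∀ g, M.op q = some (some g) → g ∈ B) : SM A K B where
  stk q := M.stk q
  op q := resOp B (M.op q) (hB q q.2)
  next q γ := ⟨M.next q (γ.map Subtype.val), hA _ q.2 _⟩

/-- Forgetting the restriction on configurations. -/
def forget {A : Set Q} {B : Set G} (c : A × (K → List B)) : Q × (K → List G) :=
  (c.1.1, fun k => (c.2 k).map Subtype.val)

theorem forget_step (M : SM Q K G) (A : Set Q) (B : Set G) (hA : ∀ q ∈ A, ∀ γ, M.next q γ ∈ A)
    (hB : ∀ q ∈ A, ∀ g, M.op q = some (some g) → g ∈ B) (c : A × (K → List B)) :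
    forget ((M.restrict A B hA hB).step c) = M.step (forget c) := by
  obtain ⟨q, S⟩ := c
  simp only [forget, step, restrict, List.head?_map, Prod.mk.injEq, true_and]
  funext k
  by_cases hk : k = M.stk q
  · subst hk; simp only [update_self, upd_resOp]
  · simp only [update_of_ne hk]

theorem forget_iterate (M : SM Q K G) (A : Set Q) (B : Set G)
    (hA : ∀ q ∈ A, ∀ γ, M.next q γ ∈ A)
    (hB : ∀ q ∈ A, ∀ g, M.op q = some (some g) → g ∈ B) (n : ℕ) (c : A × (K → List B)) :
    forget ((M.restrict A B hA hB).step^[n] c) = M.step^[n] (forget c) := by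
  induction n generalizing c with
  | zero => rfl
  | succ n ih => rw [iterate_succ_apply, iterate_succ_apply, ih, forget_step]

end SM

section Sim

variable {K : Type} [DecidableEq K] {Γ : K → Type} {Λ σ : Type}

/-- Reading a tagged symbol as a symbol of stack `k`. -/
def dec (k : K) (g : Σ k, Γ k) : Option (Γ k) :=
  if h : g.1 = k then some (h ▸ g.2) else none

theorem dec_mk (k : K) (x : Γ k) : dec k (⟨k, x⟩ : Σ k, Γ k) = some x := by
  simp [dec]

theorem head_dec (k : K) (l : List (Γ k)) :
    ((l.map (Sigma.mk k)).head?).bind (dec k) = l.head? := by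
  cases l with
  | nil => rfl
  | cons x l => simp [dec_mk]

/-- The simple machine that runs a Mathlib stack machine one instruction at a time. -/
def micro (m : Λ → Stmt Γ Λ σ) (k₀ : K) : SM (Option (Stmt Γ Λ σ) × σ) K (Σ k, Γ k) where
  stk q := match q.1 with
    | some (.push k _ _) => k
    | some (.peek k _ _) => k
    | some (.pop k _ _) => k
    | _ => k₀
  op q := match q.1 with
    | some (.push k f _) => some (some ⟨k, f q.2⟩)
    | some (.pop _ _ _) => some none
    | _ => none
  next q γ := match q.1 with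
    | some (.push _ _ r) => (some r, q.2)
    | some (.peek k f r) => (some r, f q.2 (γ.bind (dec k)))
    | some (.pop k f r) => (some r, f q.2 (γ.bind (dec k)))
    | some (.load a r) => (some r, a q.2)
    | some (.branch f r₁ r₂) => (some (cond (f q.2) r₁ r₂), q.2)
    | some (.goto f) => (some (m (f q.2)), q.2)
    | some .halt => (none, q.2)
    | none => (none, q.2)

/-- Tagged stack contents. -/
def tr (S : ∀ k, List (Γ k)) : K → List (Σ k, Γ k) := fun k => (S k).map (Sigma.mk k)

theorem tr_update (S : ∀ k, List (Γ k)) (k : K) (l : List (Γ k)) :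
    tr (update S k l) = update (tr S) k (l.map (Sigma.mk k)) := by
  funext j
  by_cases h : j = k
  · subst h; simp [tr]
  · simp [tr, update_of_ne h]

/-- The configuration of the simple machine. -/
def conf (m : Λ → Stmt Γ Λ σ) (c : Cfg Γ Λ σ) :
    (Option (Stmt Γ Λ σ) × σ) × (K → List (Σ k, Γ k)) :=
  ((c.l.map m, c.var), tr c.stk)

/-- Depth of a statement. -/
def depth : Stmt Γ Λ σ → ℕ
  | .push _ _ q => depth q + 1
  | .peek _ _ q => depth q + 1
  | .pop _ _ q => depth q + 1
  | .load _ q => depth q + 1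
  | .branch _ q₁ q₂ => depth q₁ + depth q₂ + 1
  | .goto _ => 1
  | .halt => 1

theorem micro_stepAux (m : Λ → Stmt Γ Λ σ) (k₀ : K) (q : Stmt Γ Λ σ) (v : σ)
    (S : ∀ k, List (Γ k)) :
    ∃ n ≤ depth q, (micro m k₀).step^[n] ((some q, v), tr S) = conf m (stepAux q v S) := by
  induction q generalizing v S with
  | push k f q ih =>
    obtain ⟨n, hn, h⟩ := ih v (update S k (f v :: S k))
    refine ⟨n + 1, by simp [depth, hn], ?_⟩
    rw [iterate_succ_apply, stepAux, ← h, tr_update]
    rfl
  | peek k f q ih =>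
    obtain ⟨n, hn, h⟩ := ih (f v (S k).head?) S
    refine ⟨n + 1, by simp [depth, hn], ?_⟩
    rw [iterate_succ_apply, stepAux, ← h, ← head_dec]
    congr 1
    simp [SM.step, micro, upd, tr]
  | pop k f q ih =>
    obtain ⟨n, hn, h⟩ := ih (f v (S k).head?) (update S k (S k).tail)
    refine ⟨n + 1, by simp [depth, hn], ?_⟩
    rw [iterate_succ_apply, stepAux, ← h, ← head_dec, tr_update]
    congr 1
    simp [SM.step, micro, upd, tr]
  | load a q ih =>
    obtain ⟨n, hn, h⟩ := ih (a v) S
    refine ⟨n + 1, by simp [depth, hn], ?_⟩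
    rw [iterate_succ_apply, stepAux, ← h]
    congr 1
    simp [SM.step, micro, upd]
  | branch f q₁ q₂ ih₁ ih₂ =>
    cases hf : f v
    · obtain ⟨n, hn, h⟩ := ih₂ v S
      refine ⟨n + 1, by simp only [depth]; omega, ?_⟩
      rw [iterate_succ_apply, stepAux, hf, cond_false, ← h]
      congr 1
      simp [SM.step, micro, upd, hf]
    · obtain ⟨n, hn, h⟩ := ih₁ v S
      refine ⟨n + 1, by simp only [depth]; omega, ?_⟩
      rw [iterate_succ_apply, stepAux, hf, cond_true, ← h]
      congr 1
      simp [SM.step, micro, upd, hf]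
  | goto f => exact ⟨1, le_rfl, by simp [SM.step, micro, upd, conf]⟩
  | halt => exact ⟨1, le_rfl, by simp [SM.step, micro, upd, conf]⟩

theorem micro_steps (m : Λ → Stmt Γ Λ σ) (k₀ : K) {C : ℕ} (hC : ∀ l, depth (m l) ≤ C)
    {n : ℕ} {c d : Cfg Γ Λ σ} (h : Steps m n c d) :
    ∃ n' ≤ C * n, (micro m k₀).step^[n'] (conf m c) = conf m d := by
  induction h with
  | refl c => exact ⟨0, by simp, rfl⟩
  | head l v S _ ih =>
    obtain ⟨n₁, h₁, e₁⟩ := micro_stepAux m k₀ (m l) v S
    obtain ⟨n₂, h₂, e₂⟩ := ih
    refine ⟨n₂ + n₁, ?_, ?_⟩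
    · have := hC l
      rw [Nat.mul_succ]; omega
    · rw [iterate_add_apply, ← e₂, ← e₁]; rfl

theorem micro_halt (m : Λ → Stmt Γ Λ σ) (k₀ : K) (v : σ) (S : K → List (Σ k, Γ k)) (n : ℕ) :
    (micro m k₀).step^[n] ((none, v), S) = ((none, v), S) := by
  refine iterate_fixed ?_ n
  simp [SM.step, micro, upd]

end Sim

/-- A simple machine with finite control and alphabet, with input and output conventions. -/
structure FSM : Type 1 where
  Q : Type
  K : Type
  G : Type
  [finQ : Fintype Q]
  [finK : Fintype K]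
  [finG : Fintype G]
  [decK : DecidableEq K]
  M : SM Q K G
  q₀ : Q
  k₀ : K
  k₁ : K
  inp : Bool → G
  out : Bool → G
  out_inj : Injective out

attribute [instance] FSM.finQ FSM.finK FSM.finG FSM.decK

/-- The starting configuration on an input. -/
def FSM.start (F : FSM) (x : List Bool) : F.Q × (F.K → List F.G) :=
  (F.q₀, fun k => if k = F.k₀ then x.map F.inp else [])

theorem exists_fsm {α : Type} {e F : α → List Bool} (h : PT e F) :
    ∃ (N : FSM) (r : Polynomial ℕ), ∀ a t, r.eval (e a).length ≤ t →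
      (N.M.step^[t] (N.start (e a))).2 N.k₁ = (F a).map N.out := by
  classical
  obtain ⟨T⟩ := h
  have := T.tm.ΛFin
  have := T.tm.σFin
  have := T.tm.kFin
  obtain ⟨C, hC⟩ : ∃ C, ∀ l, depth (T.tm.m l) ≤ C :=
    ⟨Finset.univ.sup (fun l => depth (T.tm.m l)),
      fun l => Finset.le_sup (f := fun l => depth (T.tm.m l)) (Finset.mem_univ l)⟩
  let M := micro T.tm.m T.tm.k₀
  let A : Set (Option (Stmt T.tm.Γ T.tm.Λ T.tm.σ) × T.tm.σ) :=
    {q | q.1 ∈ stmts T.tm.m Finset.univ}
  let B : Set (Σ k, T.tm.Γ k) :=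
    {g | (∃ q ∈ A, M.op q = some (some g)) ∨ (∃ b, g = ⟨T.tm.k₀, T.inputAlphabet.symm b⟩) ∨
      ∃ b, g = ⟨T.tm.k₁, T.outputAlphabet.symm b⟩}
  have hAfin : A.Finite :=
    ((stmts T.tm.m Finset.univ).finite_toSet.prod (Set.finite_univ (α := T.tm.σ))).subset
      (fun q hq => ⟨hq, trivial⟩)
  have hBfin : B.Finite := by
    refine (((hAfin.image (fun q => ((M.op q).getD none).getD
      ⟨T.tm.k₀, T.inputAlphabet.symm true⟩)).union
      (Set.finite_range (fun b => (⟨T.tm.k₀, T.inputAlphabet.symm b⟩ : Σ k, T.tm.Γ k)))).union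
      (Set.finite_range (fun b => (⟨T.tm.k₁, T.outputAlphabet.symm b⟩ : Σ k, T.tm.Γ k)))).subset ?_
    rintro g (⟨q, hq, h⟩ | ⟨b, rfl⟩ | ⟨b, rfl⟩)
    · exact Or.inl (Or.inl ⟨q, hq, by simp [h]⟩)
    · exact Or.inl (Or.inr ⟨b, rfl⟩)
    · exact Or.inr ⟨b, rfl⟩
  have hmem : ∀ l, some (T.tm.m l) ∈ stmts T.tm.m Finset.univ := by
    intro l
    simp only [stmts, Finset.mem_insertNone, Finset.mem_biUnion, Option.mem_def,
      Option.some.injEq, forall_eq']
    exact ⟨l, Finset.mem_univ _, stmts₁_self⟩
  have hnone : none ∈ stmts T.tm.m Finset.univ := by simp [stmts]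
  have hA : ∀ q ∈ A, ∀ γ, M.next q γ ∈ A := by
    rintro ⟨s, v⟩ hq γ
    rcases s with _ | s
    · exact hnone
    · cases s with
      | push k f r => exact stmts_trans (by simp [stmts₁, stmts₁_self]) hq
      | peek k f r => exact stmts_trans (by simp [stmts₁, stmts₁_self]) hq
      | pop k f r => exact stmts_trans (by simp [stmts₁, stmts₁_self]) hq
      | load a r => exact stmts_trans (by simp [stmts₁, stmts₁_self]) hq
      | branch f r₁ r₂ =>
        refine stmts_trans (q₁ := cond (f v) r₁ r₂) ?_ hq
        cases f v <;> simp [stmts₁, stmts₁_self]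
      | goto f => exact hmem _
      | halt => exact hnone
  have hB : ∀ q ∈ A, ∀ g, M.op q = some (some g) → g ∈ B := fun q hq g h => Or.inl ⟨q, hq, h⟩
  let N : FSM :=
    { Q := A, K := T.tm.K, G := B, finQ := hAfin.fintype, finG := hBfin.fintype
      M := M.restrict A B hA hB
      q₀ := ⟨(some (T.tm.m T.tm.main), T.tm.initialState), hmem _⟩
      k₀ := T.tm.k₀, k₁ := T.tm.k₁
      inp := fun b => ⟨⟨T.tm.k₀, T.inputAlphabet.symm b⟩, Or.inr (Or.inl ⟨b, rfl⟩)⟩
      out := fun b => ⟨⟨T.tm.k₁, T.outputAlphabet.symm b⟩, Or.inr (Or.inr ⟨b, rfl⟩)⟩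
      out_inj := fun b b' h => by
        have h1 := congrArg Subtype.val h
        simp only [Sigma.mk.injEq, heq_eq_eq, true_and] at h1
        exact T.outputAlphabet.symm.injective h1 }
  refine ⟨N, Polynomial.C C * T.time, fun a t ht => ?_⟩
  obtain ⟨n, hn, hs⟩ := PT.steps T a
  obtain ⟨n', hn', hs'⟩ := micro_steps T.tm.m T.tm.k₀ hC hs
  have h1 : SM.forget (N.start (e a)) =
      conf T.tm.m (initList T.tm ((e a).map T.inputAlphabet.symm)) := by
    simp only [SM.forget, FSM.start, conf, initList, N, Option.map_some, Prod.mk.injEq, true_and]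
    funext k
    by_cases hk : k = T.tm.k₀
    · subst hk; simp [tr, Function.comp_def]
    · simp [tr, hk]
  have h2 : n' ≤ t := by
    simp only [Polynomial.eval_mul, Polynomial.eval_C] at ht
    exact hn'.trans ((Nat.mul_le_mul_left C hn).trans ht)
  obtain ⟨d, rfl⟩ := Nat.exists_eq_add_of_le' h2
  have h3 := SM.forget_iterate M A B hA hB (d + n') (N.start (e a))
  rw [h1, iterate_add_apply M.step, hs'] at h3
  have h4 : conf T.tm.m (haltList T.tm ((F a).map T.outputAlphabet.symm)) =
      ((none, T.tm.initialState), tr (haltList T.tm ((F a).map T.outputAlphabet.symm)).stk) := rfl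
  rw [h4, micro_halt] at h3
  have h5 := congrFun (congrArg Prod.snd h3) T.tm.k₁
  apply List.map_injective_iff.2 Subtype.val_injective
  refine Eq.trans h5 ?_
  simp [tr, haltList, N, Function.comp_def]

end Pool.Agent.H82
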